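import Mathlib

namespace Pool.Agent.H77Z.Strip

open Finset

/-- Potentials making two indices active at every row. -/
theorem exists_potential {I K : Type*} [Fintype I] [Fintype K] [Nonempty K]
    (hc : Fintype.card I < Fintype.card K) (c : I → K → ℝ) :
    ∃ β : K → ℝ, ∀ i, ∃ k k', k ≠ k' ∧ (∀ j, c i j + β j ≤ c i k + β k) ∧
      (∀ j, c i j + β j ≤ c i k' + β k') := by
  classical
  obtain ⟨C, hC⟩ : ∃ C : ℝ, ∀ i j, |c i j| ≤ C := by
    obtain ⟨C, hC⟩ := (Set.finite_range (fun p : I × K => |c p.1 p.2|)).bddAbove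
    exact ⟨C, fun i j => hC ⟨(i, j), rfl⟩⟩
  set L : ℝ := 2 * |C| + 1 with hL
  have hLpos : 0 < L := by positivity
  set m : I → (K → ℝ) → ℝ := fun i β => univ.sup' univ_nonempty (fun k => c i k + β k) with hm
  set M : ℝ := (Fintype.card K : ℝ) with hM
  set N : ℝ := (Fintype.card I : ℝ) with hN
  have hMN : N < M := by rw [hM, hN]; exact_mod_cast hc
  have hN0 : 0 ≤ N := by rw [hN]; positivity
  set Φ : (K → ℝ) → ℝ := fun β => M * ∑ i, m i β - N * ∑ k, β k with hΦ
  have hcont : Continuous Φ := by
    refine (continuous_const.mul (continuous_finset_sum _ fun i _ => ?_)).sub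
      (continuous_const.mul (continuous_finset_sum _ fun k _ => continuous_apply k))
    exact Continuous.finset_sup'_apply _ fun k _ => continuous_const.add (continuous_apply k)
  have hne : (Set.Icc (fun _ : K => -L) (fun _ => (0 : ℝ))).Nonempty :=
    ⟨fun _ => 0, fun _ => by simp only; linarith, fun _ => le_rfl⟩
  obtain ⟨β, hβ, hmin⟩ := isCompact_Icc.exists_isMinOn hne hcont.continuousOn
  refine ⟨β, fun i0 => ?_⟩
  by_contra hcon
  push Not at hcon
  obtain ⟨k0, -, hk0⟩ := exists_max_image univ (fun k => c i0 k + β k) univ_nonempty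
  have hk0' : ∀ j, c i0 j + β j ≤ c i0 k0 + β k0 := fun j => hk0 j (mem_univ j)
  have hlt : ∀ j, j ≠ k0 → c i0 j + β j < c i0 k0 + β k0 := by
    intro j hj
    obtain ⟨l, hl⟩ := hcon k0 j (Ne.symm hj) hk0'
    exact lt_of_lt_of_le hl (hk0' l)
  obtain ⟨t, ht0, ht⟩ : ∃ t : ℝ, 0 < t ∧ ∀ j, j ≠ k0 → c i0 j + β j + t ≤ c i0 k0 + β k0 := by
    by_cases h : (univ.filter (fun j => j ≠ k0)).Nonempty
    · obtain ⟨j0, hj0, hj⟩ := exists_max_image _ (fun k => c i0 k + β k) h
      refine ⟨c i0 k0 + β k0 - (c i0 j0 + β j0), sub_pos.2 (hlt j0 (mem_filter.1 hj0).2), ?_⟩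
      intro j hjk
      have := hj j (mem_filter.2 ⟨mem_univ _, hjk⟩)
      linarith
    · refine ⟨1, one_pos, fun j hj => absurd ⟨j, mem_filter.2 ⟨mem_univ _, hj⟩⟩ h⟩
  have key : ∀ u s : ℝ, 0 < s → s ≤ t →
      Φ (fun j => β j + u - if j = k0 then s else 0) < Φ β := by
    intro u s hs hst
    have h1 : ∀ i, m i (fun j => β j + u - if j = k0 then s else 0) ≤
        m i β + u - if i = i0 then s else 0 := by
      intro i
      refine sup'_le _ _ fun j _ => ?_
      have hj : c i j + β j ≤ m i β := le_sup' (fun k => c i k + β k) (mem_univ j)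
      by_cases hi : i = i0
      · subst hi
        have hk : c i k0 + β k0 ≤ m i β := le_sup' (fun k => c i k + β k) (mem_univ k0)
        by_cases hjk : j = k0
        · simp only [hjk, if_true]; linarith
        · have := ht j hjk
          simp only [hjk, if_true, if_false]; linarith
      · by_cases hjk : j = k0
        · simp only [hjk, hi, if_true, if_false]; rw [hjk] at hj; linarith
        · simp only [hjk, hi, if_false]; linarith
    have h2 : ∑ i, m i (fun j => β j + u - if j = k0 then s else 0) ≤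
        ∑ i, m i β + N * u - s := by
      refine (sum_le_sum fun i _ => h1 i).trans (le_of_eq ?_)
      rw [sum_sub_distrib, sum_add_distrib, sum_ite_eq' univ i0 (fun _ => s)]
      simp [hN]
    have h3 : ∑ j, (β j + u - if j = k0 then s else 0) = ∑ j, β j + M * u - s := by
      rw [sum_sub_distrib, sum_add_distrib, sum_ite_eq' univ k0 (fun _ => s)]
      simp [hM]
    simp only [hΦ]
    rw [h3]
    have hM0 : 0 ≤ M := by linarith
    have h4 := mul_le_mul_of_nonneg_left h2 hM0
    nlinarith
  by_cases hb : -L < β k0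
  · have hs : 0 < min t (β k0 + L) := lt_min ht0 (by linarith)
    have := key 0 _ hs (min_le_left _ _)
    refine absurd (hmin (show (fun j => β j + 0 - if j = k0 then min t (β k0 + L) else 0) ∈
      Set.Icc (fun _ : K => -L) (fun _ => (0 : ℝ)) from ⟨fun j => ?_, fun j => ?_⟩)) (not_le.2 this)
    · have h1 := hβ.1 j
      have h2 := min_le_right t (β k0 + L)
      by_cases hj : j = k0
      · simp only [hj, if_true]; linarith
      · simp only [hj, if_false] at h1 ⊢; linarith
    · have h1 := hβ.2 j
      by_cases hj : j = k0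
      · simp only [hj, if_true] at h1 ⊢; linarith
      · simp only [hj, if_false] at h1 ⊢; linarith
  · have hs : 0 < min t 1 := lt_min ht0 one_pos
    have := key (min t 1) _ hs (min_le_left _ _)
    refine absurd (hmin (show (fun j => β j + min t 1 - if j = k0 then min t 1 else 0) ∈
      Set.Icc (fun _ : K => -L) (fun _ => (0 : ℝ)) from ⟨fun j => ?_, fun j => ?_⟩)) (not_le.2 this)
    · have h1 := hβ.1 j
      by_cases hj : j = k0
      · simp only [hj, if_true] at h1 ⊢; linarith
      · simp only [hj, if_false] at h1 ⊢; linarith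
    · have h1 := hβ.2 j
      have h2 := min_le_right t 1
      have h3 := hk0' j
      have h4 := (abs_le.1 ((hC i0 j).trans (le_abs_self C))).1
      have h5 := (abs_le.1 ((hC i0 k0).trans (le_abs_self C))).2
      by_cases hj : j = k0
      · simp only [hj, if_true] at h1 ⊢; linarith
      · simp only [hj, if_false] at h1 ⊢; linarith

/-- A finite separated net of a compact set. -/
theorem exists_net {X : Type*} [PseudoMetricSpace X] {S : Set X} (hS : IsCompact S) {r : ℝ}
    (hr : 0 < r) : ∃ T : Finset X, (T : Set X) ⊆ S ∧ (∀ x ∈ T, ∀ y ∈ T, x ≠ y → r < dist x y) ∧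
      ∀ x ∈ S, ∃ t ∈ T, dist x t ≤ r := by
  classical
  obtain ⟨F, -, hFfin, hF⟩ := hS.finite_cover_balls (half_pos hr)
  have hbd : ∀ T : Finset X, (T : Set X) ⊆ S → (∀ x ∈ T, ∀ y ∈ T, x ≠ y → r < dist x y) →
      T.card ≤ hFfin.toFinset.card := by
    intro T hT hsep
    have : ∀ x : X, ∃ f : X, x ∈ S → f ∈ F ∧ dist x f < r / 2 := by
      intro x
      by_cases hx : x ∈ S
      · obtain ⟨f, hf, hxf⟩ := Set.mem_iUnion₂.1 (hF hx)
        exact ⟨f, fun _ => ⟨hf, hxf⟩⟩
      · exact ⟨x, fun h => absurd h hx⟩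
    choose g hg using this
    refine card_le_card_of_injOn g (fun x hx => ?_) (fun x hx y hy hxy => ?_)
    · simpa using (hg x (hT hx)).1
    · by_contra hne
      have h1 := hsep x hx y hy hne
      have h2 := (hg x (hT hx)).2
      have h3 := (hg y (hT hy)).2
      rw [hxy] at h2
      have := dist_triangle_right x y (g y)
      linarith
  set P : ℕ → Prop := fun n => ∃ T : Finset X, (T : Set X) ⊆ S ∧
    (∀ x ∈ T, ∀ y ∈ T, x ≠ y → r < dist x y) ∧ T.card = n with hP
  have hP0 : P 0 := ⟨∅, by simp, by simp, rfl⟩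
  obtain ⟨T, hT, hsep, hcard⟩ : P (Nat.findGreatest P hFfin.toFinset.card) :=
    Nat.findGreatest_spec (Nat.zero_le _) hP0
  refine ⟨T, hT, hsep, fun x hx => ?_⟩
  by_contra hcon
  push Not at hcon
  have hxT : x ∉ T := fun h => by
    have := hcon x h
    rw [dist_self] at this
    linarith
  have hsub : ((insert x T : Finset X) : Set X) ⊆ S := by
    rw [coe_insert]; exact Set.insert_subset hx hT
  have hsep' : ∀ a ∈ insert x T, ∀ b ∈ insert x T, a ≠ b → r < dist a b := by
    intro a ha b hb hab
    rcases mem_insert.1 ha with rfl | ha' <;> rcases mem_insert.1 hb with rfl | hb'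
    · exact absurd rfl hab
    · exact hcon b hb'
    · rw [dist_comm]; exact hcon a ha'
    · exact hsep a ha' b hb' hab
  have h1 := hbd _ hsub hsep'
  have h2 : P (insert x T).card := ⟨_, hsub, hsep', rfl⟩
  have h3 := Nat.le_findGreatest h1 h2
  rw [card_insert_of_notMem hxT, hcard] at h3
  omega

end Pool.Agent.H77Z.Strip
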