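import Pool.Agent.H77Z.Strip.Defs
import Pool.Agent.H77Z.Strip.Pot

namespace Pool.Agent.H77Z.Strip

open Finset Metric MeasureTheory
open scoped ENNReal NNReal RealInnerProductSpace

variable {d : ℕ}

theorem exists_prox {f : EuclideanSpace ℝ (Fin d) → ℝ} {R : ℝ≥0} (hf : LipschitzWith R f)
    (x : EuclideanSpace ℝ (Fin d)) : ∃ y, IsProx f x y := by
  have hc : Continuous fun z => f z + ‖x - z‖ ^ 2 / 2 := by
    have := hf.continuous
    fun_prop
  refine hc.exists_forall_le' x ?_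
  filter_upwards [(isCompact_closedBall x (2 * R)).compl_mem_cocompact] with z hz
  have h1 : 2 * (R : ℝ) < ‖x - z‖ := by
    rw [Set.mem_compl_iff, mem_closedBall, not_le, dist_comm, dist_eq_norm] at hz
    exact hz
  have h2 := hf.dist_le_mul x z
  rw [Real.dist_eq, dist_eq_norm] at h2
  have h3 := (abs_le.1 h2).2
  have h4 : (0 : ℝ) ≤ ‖x - z‖ := norm_nonneg _
  simp only [sub_self, norm_zero]
  nlinarith

theorem grad_eq {f : EuclideanSpace ℝ (Fin d) → ℝ} {x y a : EuclideanSpace ℝ (Fin d)} {b : ℝ}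
    (hp : IsProx f x y) (hd : DifferentiableAt ℝ f y) (h1 : ∀ z, ⟪a, z⟫ + b ≤ f z)
    (h2 : f y = ⟪a, y⟫ + b) : a = x - y := by
  have hA : IsLocalMin (fun z => f z - (⟪a, z⟫ + b)) y := by
    refine Filter.Eventually.of_forall fun z => ?_
    have := h1 z
    simp only
    linarith
  have hB : IsLocalMin (fun z => f z + ‖x - z‖ ^ 2 / 2) y := Filter.Eventually.of_forall hp
  have dA : HasFDerivAt (fun z => f z - (⟪a, z⟫ + b)) (fderiv ℝ f y - innerSL ℝ a) y :=
    hd.hasFDerivAt.sub ((innerSL ℝ a).hasFDerivAt.add_const b)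
  have dn : HasFDerivAt (fun z : EuclideanSpace ℝ (Fin d) => ‖x - z‖ ^ 2)
      (2 • (innerSL ℝ (x - y)).comp (-(ContinuousLinearMap.id ℝ _))) y :=
    ((hasFDerivAt_id y).const_sub x).norm_sq
  have dB := hd.hasFDerivAt.add (dn.const_mul (1 / 2 : ℝ))
  have hB' : IsLocalMin (f + fun z => (1 / 2 : ℝ) * ‖x - z‖ ^ 2) y := by
    convert hB using 2 with z
    simp only [Pi.add_apply]
    ring
  have eA := hA.hasFDerivAt_eq_zero dA
  have eB := hB'.hasFDerivAt_eq_zero dB
  refine ext_inner_right ℝ fun v => ?_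
  have e1 := congrArg (fun L : EuclideanSpace ℝ (Fin d) →L[ℝ] ℝ => L v) eA
  have e2 := congrArg (fun L : EuclideanSpace ℝ (Fin d) →L[ℝ] ℝ => L v) eB
  simp only [ContinuousLinearMap.sub_apply, ContinuousLinearMap.add_apply, innerSL_apply_apply,
    ContinuousLinearMap.zero_apply, ContinuousLinearMap.smul_apply,
    ContinuousLinearMap.comp_apply, ContinuousLinearMap.neg_apply, ContinuousLinearMap.id_apply,
    inner_neg_right, smul_eq_mul, nsmul_eq_mul] at e1 e2
  push_cast at e2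
  linarith

/-- One generalized strip covers finitely many balls of a common radius. -/
theorem cover_balls {I K : Type*} [Fintype I] [Fintype K] [Nonempty K]
    (hc : Fintype.card I < Fintype.card K) (x : I → EuclideanSpace ℝ (Fin d))
    (a : K → EuclideanSpace ℝ (Fin d)) {ρ : ℝ} (hρ : 0 ≤ ρ) {R : ℝ≥0} (haR : ∀ k, ‖a k‖ ≤ R)
    (hsep : ∀ k k', k ≠ k' → 4 * ρ < dist (a k) (a k')) :
    ∃ f, IsPolyhedral f ∧ LipschitzWith R f ∧ ∀ i p, dist p (x i) ≤ ρ → p ∈ strip f := by
  classical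
  obtain ⟨β, hβ⟩ := exists_potential hc (fun i k => ⟪a k, x i⟫)
  set b : K → ℝ := fun k => β k + ‖a k‖ ^ 2 / 2 with hb
  set f : EuclideanSpace ℝ (Fin d) → ℝ :=
    fun z => univ.sup' univ_nonempty (fun k => ⟪a k, z⟫ + b k) with hf
  have hle : ∀ k z, ⟪a k, z⟫ + b k ≤ f z := fun k z =>
    le_sup' (fun k => ⟪a k, z⟫ + b k) (mem_univ k)
  have hex : ∀ z, ∃ k, f z = ⟪a k, z⟫ + b k := fun z => by
    obtain ⟨k, -, hk⟩ := exists_mem_eq_sup' univ_nonempty (fun k => ⟪a k, z⟫ + b k)
    exact ⟨k, hk⟩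
  have hlip : LipschitzWith R f := by
    refine LipschitzWith.of_le_add_mul R fun z w => ?_
    obtain ⟨k, hk⟩ := hex z
    have h1 := hle k w
    have h2 : ⟪a k, z - w⟫ ≤ ‖a k‖ * ‖z - w‖ := real_inner_le_norm _ _
    have h3 : ‖a k‖ * ‖z - w‖ ≤ R * ‖z - w‖ := mul_le_mul_of_nonneg_right (haR k) (norm_nonneg _)
    rw [inner_sub_right] at h2
    rw [dist_eq_norm]
    linarith
  refine ⟨f, ?_, hlip, fun i p hp => ?_⟩
  · let g : K → (EuclideanSpace ℝ (Fin d) →ᵃ[ℝ] ℝ) := fun k =>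
      (innerSL ℝ (a k)).toLinearMap.toAffineMap + AffineMap.const ℝ _ (b k)
    have hg : ∀ k z, g k z = ⟪a k, z⟫ + b k := fun k z => by simp [g]
    refine ⟨Set.range g, Set.finite_range g, fun z => ⟨?_, ?_⟩⟩
    · obtain ⟨k, hk⟩ := hex z
      exact ⟨g k, ⟨k, rfl⟩, by rw [hk]; exact hg k z⟩
    · rintro _ ⟨_, ⟨k, rfl⟩, rfl⟩
      simp only [hg]
      exact hle k z
  · obtain ⟨y, hy⟩ := exists_prox hlip p
    refine ⟨y, hy, fun hd => ?_⟩
    obtain ⟨j, hj⟩ := hex y
    have ha : a j = p - y := grad_eq hy hd (hle j) hj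
    have hy' : y = p - a j := by rw [ha]; abel
    have key : ∀ k, (∀ l, ⟪a l, x i⟫ + β l ≤ ⟪a k, x i⟫ + β k) → ‖a k - a j‖ ≤ 2 * ρ := by
      intro k hk
      have h1 := hle k y
      rw [hj, hy'] at h1
      simp only [hb, inner_sub_right, real_inner_self_eq_norm_sq] at h1
      have h2 := hk j
      have h3 : ‖a k - a j‖ ^ 2 = ‖a k‖ ^ 2 - 2 * ⟪a k, a j⟫ + ‖a j‖ ^ 2 := norm_sub_sq_real _ _
      have h4 : ⟪a k - a j, x i - p⟫ ≤ ‖a k - a j‖ * ‖x i - p‖ := real_inner_le_norm _ _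
      have h5 : ‖x i - p‖ ≤ ρ := by rw [← dist_eq_norm, dist_comm]; exact hp
      have h6 : ‖a k - a j‖ * ‖x i - p‖ ≤ ‖a k - a j‖ * ρ :=
        mul_le_mul_of_nonneg_left h5 (norm_nonneg _)
      simp only [inner_sub_left, inner_sub_right] at h4
      have h7 : ‖a k - a j‖ ^ 2 ≤ 2 * (‖a k - a j‖ * ρ) := by linarith
      by_contra hcon
      push Not at hcon
      have h8 : 0 < ‖a k - a j‖ := by linarith
      nlinarith
    obtain ⟨k, k', hkk, h1, h2⟩ := hβ i
    have h3 := key k h1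
    have h4 := key k' h2
    have h5 := hsep k k' hkk
    have h6 := dist_triangle_right (a k) (a k') (a j)
    rw [dist_eq_norm (a k) (a j), dist_eq_norm (a k') (a j)] at h6
    linarith

/-- A compact set of small volume lies in one generalized strip of small Lipschitz constant. -/
theorem cover_compact {C : Set (EuclideanSpace ℝ (Fin d))} (hC : IsCompact C) {R : ℝ≥0}
    (hR : 0 < R) (hvol : volume C < volume (ball (0 : EuclideanSpace ℝ (Fin d)) (R / 8))) :
    ∃ f, IsPolyhedral f ∧ LipschitzWith R f ∧ C ⊆ strip f := by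
  classical
  have hR' : (0 : ℝ) < R := hR
  obtain ⟨ρ, hρ, hth⟩ : ∃ ρ : ℝ, 0 < ρ ∧
      volume (cthickening ρ C) < volume (ball (0 : EuclideanSpace ℝ (Fin d)) (R / 8)) := by
    have h := tendsto_measure_cthickening_of_isCompact (μ := volume) hC
    have h2 := (h.mono_left (nhdsWithin_le_nhds (s := Set.Ioi 0))).eventually (gt_mem_nhds hvol)
    obtain ⟨ρ, h3, h4⟩ := (h2.and self_mem_nhdsWithin).exists
    exact ⟨ρ, h4, h3⟩
  obtain ⟨T, hTC, hTsep, hTcov⟩ := exists_net hC hρ
  obtain ⟨A, hAB, hAsep, hAcov⟩ := exists_net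
    (isCompact_closedBall (0 : EuclideanSpace ℝ (Fin d)) R) (r := 4 * ρ) (by linarith)
  have hAne : A.Nonempty := by
    obtain ⟨t, ht, -⟩ := hAcov 0 (mem_closedBall_self hR'.le)
    exact ⟨t, ht⟩
  haveI : Nonempty A := hAne.to_subtype
  have hcard : T.card < A.card := by
    by_contra hcon
    push Not at hcon
    set ω := volume (ball (0 : EuclideanSpace ℝ (Fin d)) 1) with hω
    set n := Module.finrank ℝ (EuclideanSpace ℝ (Fin d)) with hn
    have h1 : volume (closedBall (0 : EuclideanSpace ℝ (Fin d)) R) ≤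
        A.card * (ENNReal.ofReal ((4 * ρ) ^ n) * ω) := by
      calc volume (closedBall (0 : EuclideanSpace ℝ (Fin d)) R)
          ≤ volume (⋃ t ∈ A, closedBall t (4 * ρ)) := by
            refine measure_mono fun z hz => ?_
            obtain ⟨t, ht, hzt⟩ := hAcov z hz
            exact Set.mem_iUnion₂.2 ⟨t, ht, hzt⟩
        _ ≤ ∑ t ∈ A, volume (closedBall t (4 * ρ)) := measure_biUnion_finset_le _ _
        _ = ∑ t ∈ A, ENNReal.ofReal ((4 * ρ) ^ n) * ω := by
            refine sum_congr rfl fun t _ => ?_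
            exact Measure.addHaar_closedBall volume t (by linarith)
        _ = _ := by rw [sum_const, nsmul_eq_mul]
    have h2 : T.card * (ENNReal.ofReal ((ρ / 2) ^ n) * ω) ≤ volume (cthickening ρ C) := by
      calc (T.card : ℝ≥0∞) * (ENNReal.ofReal ((ρ / 2) ^ n) * ω)
          = ∑ t ∈ T, volume (ball t (ρ / 2)) := by
            rw [← nsmul_eq_mul, ← sum_const]
            refine sum_congr rfl fun t _ => ?_
            exact (Measure.addHaar_ball_of_pos volume t (half_pos hρ)).symm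
        _ = volume (⋃ t ∈ T, ball t (ρ / 2)) := by
            refine (measure_biUnion_finset ?_ fun _ _ => measurableSet_ball).symm
            intro s hs t ht hst
            refine ball_disjoint_ball ?_
            have := hTsep s hs t ht hst
            linarith
        _ ≤ volume (cthickening ρ C) := by
            refine measure_mono (Set.iUnion₂_subset fun t ht z hz => ?_)
            refine mem_cthickening_of_dist_le z t ρ C (hTC ht) ?_
            have := mem_ball.1 hz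
            linarith
    have h3 : volume (ball (0 : EuclideanSpace ℝ (Fin d)) (R / 8)) =
        ENNReal.ofReal ((R / 8) ^ n) * ω := Measure.addHaar_ball_of_pos volume _ (by linarith)
    have h4 : volume (closedBall (0 : EuclideanSpace ℝ (Fin d)) R) =
        ENNReal.ofReal (R ^ n) * ω := Measure.addHaar_closedBall volume _ hR'.le
    have e1 : ENNReal.ofReal ((4 * ρ) ^ n) = ENNReal.ofReal (8 ^ n) * ENNReal.ofReal ((ρ / 2) ^ n) := by
      rw [← ENNReal.ofReal_mul (by positivity), ← mul_pow]; congr 2; ring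
    have e2 : ENNReal.ofReal ((R : ℝ) ^ n) =
        ENNReal.ofReal (8 ^ n) * ENNReal.ofReal ((R / 8) ^ n) := by
      rw [← ENNReal.ofReal_mul (by positivity), ← mul_pow]; congr 2; ring
    have h5 : ENNReal.ofReal (8 ^ n) * (ENNReal.ofReal ((R / 8) ^ n) * ω) ≤
        ENNReal.ofReal (8 ^ n) * (T.card * (ENNReal.ofReal ((ρ / 2) ^ n) * ω)) := by
      calc _ = ENNReal.ofReal ((R : ℝ) ^ n) * ω := by rw [e2, mul_assoc]
        _ ≤ A.card * (ENNReal.ofReal ((4 * ρ) ^ n) * ω) := h4 ▸ h1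
        _ ≤ T.card * (ENNReal.ofReal ((4 * ρ) ^ n) * ω) := by
            gcongr
        _ = _ := by rw [e1]; ring
    have h8 : ENNReal.ofReal ((8 : ℝ) ^ n) ≠ 0 := by
      simp only [ne_eq, ENNReal.ofReal_eq_zero, not_le]; positivity
    have h6 := (ENNReal.mul_le_mul_iff_right h8 ENNReal.ofReal_ne_top).1 h5
    rw [h3] at hth
    exact absurd (h6.trans h2) (not_le.2 hth)
  obtain ⟨f, hf, hl, hcov⟩ := cover_balls (I := T) (K := A) (by simpa using hcard)
    (fun t => t.1) (fun t => t.1) hρ.le (R := R)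
    (fun k => by simpa using hAB k.2)
    (fun k k' h => hAsep k.1 k.2 k'.1 k'.2 fun h' => h (Subtype.ext h'))
  refine ⟨f, hf, hl, fun p hp => ?_⟩
  obtain ⟨t, ht, hpt⟩ := hTcov p hp
  exact hcov ⟨t, ht⟩ p hpt

end Pool.Agent.H77Z.Strip
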