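import Mathlib

/-! Generalized strips and the outer measure `gamma` on Euclidean space. -/

namespace Pool.Agent.H77Z.Strip

open scoped ENNReal NNReal

/-- `f` is the pointwise maximum of finitely many affine functions. -/
def IsPolyhedral {d : ℕ} (f : EuclideanSpace ℝ (Fin d) → ℝ) : Prop :=
  ∃ s : Set (EuclideanSpace ℝ (Fin d) →ᵃ[ℝ] ℝ), s.Finite ∧
    ∀ x, IsGreatest ((fun g => g x) '' s) (f x)

/-- `y` minimises `z ↦ f z + |x - z|² / 2`, that is, `y = prox_f (x)`. -/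
def IsProx {d : ℕ} (f : EuclideanSpace ℝ (Fin d) → ℝ) (x y : EuclideanSpace ℝ (Fin d)) : Prop :=
  ∀ z, f y + ‖x - y‖ ^ 2 / 2 ≤ f z + ‖x - z‖ ^ 2 / 2

/-- The set `S(f)` of points `x` such that `f` is not differentiable at `prox_f (x)`. -/
def strip {d : ℕ} (f : EuclideanSpace ℝ (Fin d) → ℝ) : Set (EuclideanSpace ℝ (Fin d)) :=
  {x | ∃ y, IsProx f x y ∧ ¬ DifferentiableAt ℝ f y}

/-- The Lipschitz constant of `f`. -/
noncomputable def lip {d : ℕ} (f : EuclideanSpace ℝ (Fin d) → ℝ) : ℝ≥0∞ :=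
  ⨅ (K : ℝ≥0) (_ : LipschitzWith K f), (K : ℝ≥0∞)

/-- `S` is a generalized strip: `S = S(f)` for some polyhedral `f`. -/
def IsGenStrip {d : ℕ} (S : Set (EuclideanSpace ℝ (Fin d))) : Prop :=
  ∃ f, IsPolyhedral f ∧ S = strip f

/-- The width `w(S) = 2 inf {Lip f : f polyhedral, S = S(f)}`. -/
noncomputable def width {d : ℕ} (S : Set (EuclideanSpace ℝ (Fin d))) : ℝ≥0∞ :=
  2 * ⨅ (f : EuclideanSpace ℝ (Fin d) → ℝ) (_ : IsPolyhedral f) (_ : S = strip f), lip f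

/-- The outer measure `gamma (A)`: the infimum of the total width of a sequence of generalized
strips covering `A`. -/
noncomputable def gamma {d : ℕ} (A : Set (EuclideanSpace ℝ (Fin d))) : ℝ≥0∞ :=
  ⨅ (S : ℕ → Set (EuclideanSpace ℝ (Fin d))) (_ : ∀ i, IsGenStrip (S i)) (_ : A ⊆ ⋃ i, S i),
    ∑' i, width (S i)

end Pool.Agent.H77Z.Strip
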