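import Pool.Agent.H77Z.Strip.Cover

namespace Pool.Agent.H77Z.Strip

open Metric MeasureTheory Filter Topology
open scoped ENNReal NNReal

variable {d : ℕ}

/-- A null set is covered by compact sets of prescribed small volumes. -/
theorem exists_compact_cover {A : Set (EuclideanSpace ℝ (Fin d))} (hA : volume A = 0)
    (δ : ℕ → ℝ≥0∞) (hδ : ∀ j, 0 < δ j) (hδ0 : δ 0 ≠ ⊤) :
    ∃ C : ℕ → Set (EuclideanSpace ℝ (Fin d)), (∀ j, IsCompact (C j)) ∧
      (∀ j, volume (C j) < δ j) ∧ A ⊆ ⋃ j, C j := by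
  classical
  obtain ⟨U, hAU, hU, hUvol⟩ := Set.exists_isOpen_lt_of_lt A (δ 0) (μ := volume)
    (by rw [hA]; exact hδ 0)
  set V : ℕ → Set (EuclideanSpace ℝ (Fin d)) :=
    fun n => ball 0 n \ cthickening (1 / ((n : ℝ) + 1)) Uᶜ with hV
  set K : ℕ → Set (EuclideanSpace ℝ (Fin d)) :=
    fun n => closedBall 0 n \ thickening (1 / ((n : ℝ) + 1)) Uᶜ with hK
  have hVo : ∀ n, IsOpen (V n) := fun n => isOpen_ball.sdiff isClosed_cthickening
  have hKc : ∀ n, IsCompact (K n) := fun n => (isCompact_closedBall _ _).diff isOpen_thickening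
  have hVK : ∀ n, V n ⊆ K n := fun n =>
    Set.diff_subset_diff ball_subset_closedBall (thickening_subset_cthickening _ _)
  have hKU : ∀ n, K n ⊆ U := by
    intro n z hz
    by_contra h
    exact hz.2 (self_subset_thickening (by positivity) _ h)
  have hVm : Monotone V := by
    intro m n hmn
    have h1 : (m : ℝ) ≤ n := by exact_mod_cast hmn
    refine Set.diff_subset_diff (ball_subset_ball h1) (cthickening_mono ?_ _)
    exact one_div_le_one_div_of_le (by positivity) (by linarith)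
  have hUV : ∀ z ∈ U, ∃ n, z ∈ V n := by
    intro z hz
    obtain ⟨ε, hε, hb⟩ := Metric.isOpen_iff.1 hU z hz
    obtain ⟨n1, hn1⟩ := exists_nat_gt ‖z‖
    obtain ⟨n2, hn2⟩ := exists_nat_one_div_lt hε
    refine ⟨max n1 n2, ?_, fun h => ?_⟩
    · rw [mem_ball_zero_iff]
      refine hn1.trans_le ?_
      exact_mod_cast le_max_left _ _
    · have h1 : 1 / (((max n1 n2 : ℕ) : ℝ) + 1) < ε := by
        refine lt_of_le_of_lt ?_ hn2
        refine one_div_le_one_div_of_le (by positivity) ?_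
        have : (n2 : ℝ) ≤ ((max n1 n2 : ℕ) : ℝ) := by exact_mod_cast le_max_right _ _
        linarith
      obtain ⟨w, hw, hzw⟩ := mem_thickening_iff.1 (cthickening_subset_thickening' hε h1 _ h)
      exact hw (hb (by rw [mem_ball, dist_comm]; exact hzw))
  have hlim : Tendsto (fun n => volume (U \ V n)) atTop (𝓝 0) := by
    have h1 := tendsto_measure_iInter_atTop (μ := volume) (s := fun n => U \ V n)
      (fun n => (hU.measurableSet.diff (hVo n).measurableSet).nullMeasurableSet)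
      (fun m n hmn => Set.diff_subset_diff_right (hVm hmn))
      ⟨0, ((measure_mono Set.diff_subset).trans_lt (hUvol.trans_le le_top)).ne⟩
    have h2 : (⋂ n, U \ V n) = ∅ := by
      refine Set.eq_empty_of_forall_notMem fun z hz => ?_
      rw [Set.mem_iInter] at hz
      obtain ⟨n, hn⟩ := hUV z (hz 0).1
      exact (hz n).2 hn
    rw [h2, measure_empty] at h1
    exact h1
  have hex : ∀ j : ℕ, ∃ n, j ≤ n ∧ volume (U \ V n) < δ (j + 1) := by
    intro j
    exact ((eventually_ge_atTop j).and (hlim.eventually (gt_mem_nhds (hδ (j + 1))))).exists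
  choose n hn1 hn2 using hex
  refine ⟨fun j => Nat.casesOn j (K (n 0)) (fun i => K (n (i + 1)) \ V (n i)), ?_, ?_, ?_⟩
  · rintro (_ | j)
    · exact hKc _
    · exact (hKc _).diff (hVo _)
  · rintro (_ | j)
    · exact (measure_mono (hKU _)).trans_lt hUvol
    · exact (measure_mono (Set.diff_subset_diff_left (hKU _))).trans_lt (hn2 j)
  · intro z hz
    have h1 : ∃ j, z ∈ V (n j) := by
      obtain ⟨m, hm⟩ := hUV z (hAU hz)
      exact ⟨m, hVm (hn1 m) hm⟩
    have h2 := Nat.find_spec h1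
    rcases h3 : Nat.find h1 with _ | j
    · rw [h3] at h2
      exact Set.mem_iUnion.2 ⟨0, hVK _ h2⟩
    · rw [h3] at h2
      exact Set.mem_iUnion.2 ⟨j + 1, hVK _ h2, Nat.find_min h1 (by omega)⟩

theorem width_le {f : EuclideanSpace ℝ (Fin d) → ℝ} (hf : IsPolyhedral f) {R : ℝ≥0}
    (hl : LipschitzWith R f) : width (strip f) ≤ 2 * R := by
  unfold width
  gcongr
  refine iInf_le_of_le f (iInf_le_of_le hf (iInf_le_of_le rfl ?_))
  exact iInf_le_of_le R (iInf_le_of_le hl le_rfl)

theorem gamma_eq_zero {A : Set (EuclideanSpace ℝ (Fin d))} (hA : volume A = 0) : gamma A = 0 := by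
  refine le_antisymm (ENNReal.le_of_forall_pos_le_add fun ε hε _ => ?_) (zero_le)
  obtain ⟨R, hR, hsum⟩ := ENNReal.exists_pos_sum_of_countable
    (ε := ((ε / 2 : ℝ≥0) : ℝ≥0∞)) (by simpa using hε.ne') ℕ
  obtain ⟨C, hCc, hCv, hAC⟩ := exists_compact_cover hA
    (fun j => volume (ball (0 : EuclideanSpace ℝ (Fin d)) (R j / 8)))
    (fun j => measure_ball_pos _ _ (by have : (0 : ℝ) < R j := hR j; linarith))
    measure_ball_lt_top.ne
  choose f hf hl hC using fun j => cover_compact (hCc j) (hR j) (hCv j)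
  rw [zero_add]
  refine iInf_le_of_le (fun j => strip (f j)) (iInf_le_of_le (fun j => ⟨f j, hf j, rfl⟩)
    (iInf_le_of_le (hAC.trans (Set.iUnion_mono hC)) ?_))
  calc ∑' j, width (strip (f j)) ≤ ∑' j, 2 * (R j : ℝ≥0∞) :=
        ENNReal.tsum_le_tsum fun j => width_le (hf j) (hl j)
    _ = 2 * ∑' j, (R j : ℝ≥0∞) := ENNReal.tsum_mul_left
    _ ≤ 2 * ((ε / 2 : ℝ≥0) : ℝ≥0∞) := by gcongr
    _ = ε := by
        rw [← ENNReal.coe_two, ← ENNReal.coe_mul]
        congr 1
        field_simp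

end Pool.Agent.H77Z.Strip
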